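import Mathlib
import Pool.Agent.Helper70.Gen.IgnDef
import Pool.Agent.Helper19.PercFinal

namespace Pool.Agent.Helper70.Gen.IgD
end Pool.Agent.Helper70.Gen.IgD

/-!
# The ignition system percolates (piece IGN-1)
-/

set_option linter.unusedSectionVars false
set_option linter.unusedVariables false

namespace Pool.Agent.Helper33.Gen

open Set SimpleGraph Pool.Agent.Helper19.Perco Pool.Agent.Helper70.Gen Pool.Agent.Helper70.Gen.IgD

/-- many neighbours -/
lemma cnt_ge {d n m : ℕ} (S : Set (Fin d → Fin n)) (y : Fin d → Fin n) (e : Fin m → Fin d)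
    (he : Function.Injective e) (v : Fin m → Fin n)
    (hadj : ∀ i, (Gd d n).Adj y (Function.update y (e i) (v i)))
    (hS : ∀ i, Function.update y (e i) (v i) ∈ S) (w : Fin d → Fin n)
    (hw : (Gd d n).Adj y w) (hwS : w ∈ S) (hwe : ∀ i, w (e i) = y (e i)) :
    m + 1 ≤ cnt (Gd d n) S y := by
  let g : Option (Fin m) → (Fin d → Fin n) := fun o =>
    match o with
    | none => w
    | some i => Function.update y (e i) (v i)
  have hne : ∀ i, v i ≠ y (e i) := by
    intro i h
    have h1 := hadj i
    rw [h, Function.update_eq_self] at h1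
    exact (Gd d n).irrefl h1
  have hg : Function.Injective g := by
    intro o o' h
    match o, o' with
    | none, none => rfl
    | none, some i =>
      have h1 := congrFun h (e i)
      simp only [g, Function.update_self] at h1
      exact absurd (h1.symm.trans (hwe i)) (hne i)
    | some i, none =>
      have h1 := congrFun h (e i)
      simp only [g, Function.update_self] at h1
      exact absurd (h1.trans (hwe i)) (hne i)
    | some i, some j =>
      by_cases hij : i = j
      · rw [hij]
      · exfalso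
        have h1 := congrFun h (e i)
        simp only [g, Function.update_self] at h1
        rw [Function.update_of_ne (fun h => hij (he h))] at h1
        exact hne i h1
  unfold cnt
  have h1 : (Set.range g).ncard = m + 1 := by
    rw [← Set.image_univ, Set.ncard_image_of_injective _ hg, Set.ncard_univ]
    simp
  rw [← h1]
  refine Set.ncard_le_ncard ?_ (Set.toFinite _)
  rintro _ ⟨o, rfl⟩
  match o with
  | none => exact ⟨hw, hwS⟩
  | some i => exact ⟨hadj i, hS i⟩

/-- boxes are connected -/
lemma box_conn {d n : ℕ} (lo hi : Fin d → ℕ) (S : Set (Fin d → Fin n)) (x : Fin d → Fin n)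
    (hx : ∀ a, lo a ≤ (x a).val ∧ (x a).val ≤ hi a) (hxS : x ∈ S)
    (hstep : ∀ y y' : Fin d → Fin n, (∀ a, lo a ≤ (y a).val ∧ (y a).val ≤ hi a) →
      (∀ a, lo a ≤ (y' a).val ∧ (y' a).val ≤ hi a) → y ∈ S → (Gd d n).Adj y' y → y' ∈ S) :
    ∀ y : Fin d → Fin n, (∀ a, lo a ≤ (y a).val ∧ (y a).val ≤ hi a) → y ∈ S := by
  have key : ∀ N : ℕ, ∀ y : Fin d → Fin n, (∀ a, lo a ≤ (y a).val ∧ (y a).val ≤ hi a) →
      ∑ a, (((x a).val - (y a).val) + ((y a).val - (x a).val)) = N → y ∈ S := by
    intro N
    induction N with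
    | zero =>
      intro y hy h
      have : y = x := by
        funext a
        have h1 := (Finset.sum_eq_zero_iff_of_nonneg (fun _ _ => Nat.zero_le _)).1 h a
          (Finset.mem_univ a)
        apply Fin.ext
        omega
      rw [this]; exact hxS
    | succ N ih =>
      intro y hy h
      obtain ⟨a, ha⟩ : ∃ a, (x a).val ≠ (y a).val := by
        by_contra hcon
        push Not at hcon
        have h0 : ∑ a, (((x a).val - (y a).val) + ((y a).val - (x a).val)) = 0 := by
          apply Finset.sum_eq_zero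
          intro a _
          have := hcon a
          omega
        omega
      have hxa := hx a
      have hya := hy a
      have hxn := (x a).isLt
      have hyn := (y a).isLt
      obtain ⟨v, hv1, hv2, hv3⟩ : ∃ v : Fin n, ((v.val + 1 = (y a).val) ∨ ((y a).val + 1 = v.val)) ∧
          (lo a ≤ v.val ∧ v.val ≤ hi a) ∧
          ((x a).val - v.val) + (v.val - (x a).val) + 1 =
            ((x a).val - (y a).val) + ((y a).val - (x a).val) := by
        rcases Nat.lt_or_gt_of_ne ha with h1 | h1
        · refine ⟨⟨(y a).val - 1, by omega⟩, Or.inl ?_, ?_, ?_⟩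
          · show (y a).val - 1 + 1 = (y a).val; omega
          · show lo a ≤ (y a).val - 1 ∧ (y a).val - 1 ≤ hi a; omega
          · show ((x a).val - ((y a).val - 1)) + (((y a).val - 1) - (x a).val) + 1 = _; omega
        · refine ⟨⟨(y a).val + 1, by omega⟩, Or.inr ?_, ?_, ?_⟩
          · show (y a).val + 1 = (y a).val + 1; rfl
          · show lo a ≤ (y a).val + 1 ∧ (y a).val + 1 ≤ hi a; omega
          · show ((x a).val - ((y a).val + 1)) + (((y a).val + 1) - (x a).val) + 1 = _; omega
      have hbox : ∀ b, lo b ≤ ((Function.update y a v) b).val ∧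
          ((Function.update y a v) b).val ≤ hi b := by
        intro b
        by_cases hb : b = a
        · subst hb; rw [Function.update_self]; exact hv2
        · rw [Function.update_of_ne hb]; exact hy b
      refine hstep (Function.update y a v) y hbox hy (ih _ hbox ?_) ?_
      · rw [← Finset.add_sum_erase Finset.univ _ (Finset.mem_univ a)] at h ⊢
        rw [Function.update_self]
        have : ∑ b ∈ Finset.univ.erase a, (((x b).val - ((Function.update y a v) b).val) +
            (((Function.update y a v) b).val - (x b).val)) =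
            ∑ b ∈ Finset.univ.erase a, (((x b).val - (y b).val) + ((y b).val - (x b).val)) := by
          apply Finset.sum_congr rfl
          intro b hb
          rw [Function.update_of_ne (Finset.ne_of_mem_erase hb)]
        rw [this]
        omega
      · refine ⟨a, ?_, fun b hb => ?_⟩
        · rw [Function.update_self]
          rcases hv1 with h1 | h1
          · right; exact h1
          · left; exact h1
        · rw [Function.update_of_ne hb]
  exact fun y hy => key _ y hy rfl

variable {m k n : ℕ} (I : IgD m k n)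

lemma quad_congr {x y : Fin (m + 1 + k) → Fin n}
    (h : ∀ a : Fin (m + 1 + k), a.val < m → x a = y a) (hx : I.quad x) : I.quad y := by
  intro a ha
  rw [← h a ha]; exact hx a ha

lemma del_congr {x y : Fin (m + 1 + k) → Fin n}
    (h : ∀ a : Fin (m + 1 + k), a.val < m → x a = y a) : I.del x = I.del y := by
  unfold IgD.del
  apply Finset.sum_congr rfl
  intro a _
  by_cases ha : a.val < m
  · rw [if_pos ha, if_pos ha, h a ha]
  · rw [if_neg ha, if_neg ha]

lemma cod1_congr {x y : Fin (m + 1 + k) → Fin n}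
    (h : ∀ a : Fin (m + 1 + k), a.val < m → x a = y a) : cod1 x = cod1 y := by
  unfold IgD.cod1
  apply Finset.sum_congr rfl
  intro a _
  by_cases ha : a.val < m
  · rw [if_pos ha, if_pos ha, h a ha]
  · rw [if_neg ha, if_neg ha]

lemma cod2_congr {x y : Fin (m + 1 + k) → Fin n}
    (h : ∀ a : Fin (m + 1 + k), 1 ≤ a.val → a.val ≤ m → x a = y a) : cod2 x = cod2 y := by
  unfold IgD.cod2
  apply Finset.sum_congr rfl
  intro a _
  by_cases ha : a.val ≤ m
  · rw [if_pos ha, if_pos ha]
    by_cases h1 : 1 ≤ a.val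
    · rw [h a h1 ha]
    · have h2 : a.val = 0 := by omega
      rw [h2, Nat.zero_mul, Nat.zero_mul]
  · rw [if_neg ha, if_neg ha]

/-- an element of the fibre with an infected neighbour in the fibre or below it -/
lemma step1 (S : Set (Fin (m + 1 + k) → Fin n)) (hS : I.J ⊆ S)
    (hcl : Closed (Gd (m + 1 + k) n) (m + 1) S) (y : Fin (m + 1 + k) → Fin n)
    (hz : I.zf ≤ Z y) (hq : I.quad y)
    (ih : ∀ x, I.zf ≤ Z x → I.quad x → I.del x < I.del y → x ∈ S)
    (w : Fin (m + 1 + k) → Fin n) (hw : (Gd (m + 1 + k) n).Adj y w) (hwS : w ∈ S)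
    (hwe : ∀ a : Fin (m + 1 + k), a.val < m → w a = y a) : y ∈ S := by
  have hlt : ∀ i : Fin m, (⟨i.val, by omega⟩ : Fin (m + 1 + k)).val < m := fun i => i.isLt
  have hge : ∀ i : Fin m, 1 ≤ (y ⟨i.val, by omega⟩).val := fun i =>
    (I.c1 _).trans (hq _ (hlt i))
  apply hcl
  refine cnt_ge S y (fun i : Fin m => (⟨i.val, by omega⟩ : Fin (m + 1 + k))) ?_
    (fun i => ⟨(y ⟨i.val, by omega⟩).val - 1, by have := (y ⟨i.val, by omega⟩).isLt; omega⟩)
    ?_ ?_ w hw hwS (fun i => hwe _ (hlt i))
  · intro i j h
    have := congrArg Fin.val h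
    exact Fin.ext this
  · intro i
    refine ⟨⟨i.val, by omega⟩, Or.inr ?_, fun j hj => ?_⟩
    · rw [Function.update_self]
      show (y ⟨i.val, by omega⟩).val - 1 + 1 = _
      have := hge i
      omega
    · rw [Function.update_of_ne hj]
  · intro i
    have hne : (IgD.hz : Fin (m + 1 + k)) ≠ ⟨i.val, by omega⟩ := by
      intro h
      have h1 : m = i.val := congrArg Fin.val h
      omega
    have hz' : I.zf ≤ Z (Function.update y (⟨i.val, by omega⟩ : Fin (m + 1 + k))
        ⟨(y ⟨i.val, by omega⟩).val - 1, by have := (y ⟨i.val, by omega⟩).isLt; omega⟩) := by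
      unfold IgD.Z
      rw [Function.update_of_ne hne]
      exact hz
    by_cases hq' : I.quad (Function.update y (⟨i.val, by omega⟩ : Fin (m + 1 + k))
        ⟨(y ⟨i.val, by omega⟩).val - 1, by have := (y ⟨i.val, by omega⟩).isLt; omega⟩)
    · refine ih _ hz' hq' ?_
      unfold IgD.del
      refine Finset.sum_lt_sum (fun a _ => ?_) ⟨⟨i.val, by omega⟩, Finset.mem_univ _, ?_⟩
      · by_cases ha : a = ⟨i.val, by omega⟩
        · subst ha
          rw [Function.update_self]
          show (if i.val < m then _ - 1 - _ else 0) ≤ _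
          rw [if_pos i.isLt, if_pos (hlt i)]
          omega
        · rw [Function.update_of_ne ha]
      · have h1 := hq' ⟨i.val, by omega⟩ (hlt i)
        rw [Function.update_self] at h1 ⊢
        rw [if_pos (hlt i), if_pos (hlt i)]
        have h2 := hge i
        have h3 : I.c ⟨i.val, by omega⟩ ≤ (y ⟨i.val, by omega⟩).val - 1 := h1
        show (y ⟨i.val, by omega⟩).val - 1 - I.c ⟨i.val, by omega⟩ < _
        omega
    · exact hS (Or.inr (Or.inl ⟨hz', hq'⟩))

/-- the upper part -/
lemma up_all (S : Set (Fin (m + 1 + k) → Fin n)) (hS : I.J ⊆ S)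
    (hcl : Closed (Gd (m + 1 + k) n) (m + 1) S) (x2 : Fin (m + 1 + k) → Fin n)
    (h2 : I.cor x2) (h3 : Z x2 = I.zf) (h4 : x2 ∈ S) :
    ∀ N : ℕ, ∀ x, I.zf ≤ Z x → I.quad x → I.del x = N → x ∈ S := by
  intro N
  induction N using Nat.strong_induction_on with
  | _ N IH =>
  intro x hx hq hd
  have ih : ∀ y : Fin (m + 1 + k) → Fin n, (∀ a : Fin (m + 1 + k), a.val < m → y a = x a) →
      ∀ z, I.zf ≤ Z z → I.quad z → I.del z < I.del y → z ∈ S := by
    intro y hy z hz hzq hlt
    rw [del_congr I hy, hd] at hlt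
    exact IH _ hlt z hz hzq rfl
  have hzn := I.zn
  -- the box
  have hbox : ∀ s : Fin (m + 1 + k) → Fin n, (∀ a : Fin (m + 1 + k), a.val < m → s a = x a) →
      I.zf ≤ Z s → s ∈ S → x ∈ S := by
    intro s hs1 hs2 hs3
    refine box_conn (fun a => if a.val < m then (x a).val else if a.val = m then I.zf else 0)
      (fun a => if a.val < m then (x a).val else n) S s ?_ hs3 ?_ x ?_
    · intro a
      have := (s a).isLt
      by_cases ha : a.val < m
      · simp only [if_pos ha, hs1 a ha, le_refl, and_self]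
      · simp only [if_neg ha]
        by_cases hb : a.val = m
        · rw [if_pos hb]
          have : a = hz := Fin.ext hb
          rw [this]
          exact ⟨hs2, by have := (s hz).isLt; omega⟩
        · rw [if_neg hb]; omega
    · intro y y' hy hy' hyS hadj
      have e1 : ∀ a : Fin (m + 1 + k), a.val < m → y a = x a := by
        intro a ha
        have := hy a
        simp only [if_pos ha] at this
        exact Fin.ext (by omega)
      have e2 : ∀ a : Fin (m + 1 + k), a.val < m → y' a = x a := by
        intro a ha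
        have := hy' a
        simp only [if_pos ha] at this
        exact Fin.ext (by omega)
      have e3 : I.zf ≤ Z y' := by
        have := (hy' hz).1
        have hm : (hz : Fin (m + 1 + k)).val = m := rfl
        simp only [hm, lt_irrefl, if_false, if_true] at this
        exact this
      exact step1 I S hS hcl y' e3 (quad_congr I (fun a ha => (e2 a ha).symm) hq) (ih y' e2) y hadj
        hyS (fun a ha => (e1 a ha).trans (e2 a ha).symm)
    · intro a
      have := (x a).isLt
      by_cases ha : a.val < m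
      · simp only [if_pos ha, le_refl, and_self]
      · simp only [if_neg ha]
        by_cases hb : a.val = m
        · rw [if_pos hb]
          have : a = hz := Fin.ext hb
          rw [this]
          exact ⟨hx, by have := (x hz).isLt; omega⟩
        · rw [if_neg hb]; omega
  have hterm : ∀ a : Fin (m + 1 + k), (if a.val < m then (x a).val - I.c a else 0) ≤ I.del x :=
    fun a => Finset.single_le_sum
      (f := fun a : Fin (m + 1 + k) => if a.val < m then (x a).val - I.c a else 0)
      (fun _ _ => Nat.zero_le _) (Finset.mem_univ a)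
  by_cases hN0 : I.del x = 0
  · refine hbox x2 (fun a ha => ?_) h3.ge h4
    have e1 := hterm a
    rw [if_pos ha, hN0] at e1
    have e2 := hq a ha
    have e3 := h2 a (by omega)
    exact Fin.ext (by omega)
  · by_cases hN1 : I.del x = 1
    · obtain ⟨b, hb, hb1, hb2⟩ : ∃ b : Fin (m + 1 + k), b.val < m ∧ (x b).val = I.c b + 1 ∧
          ∀ a : Fin (m + 1 + k), a.val < m → a ≠ b → (x a).val = I.c a := by
        obtain ⟨b, hb⟩ : ∃ b : Fin (m + 1 + k),
            (if b.val < m then (x b).val - I.c b else 0) ≠ 0 := by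
          by_contra hcon
          push Not at hcon
          exact hN0 (Finset.sum_eq_zero fun a _ => hcon a)
        have hbm : b.val < m := by
          by_contra hc
          rw [if_neg hc] at hb
          exact hb rfl
        have e1 := hterm b
        rw [if_pos hbm] at hb e1
        refine ⟨b, hbm, by omega, fun a ha hab => ?_⟩
        have e2 : (if b.val < m then (x b).val - I.c b else 0) +
            (if a.val < m then (x a).val - I.c a else 0) ≤ I.del x := by
          unfold IgD.del
          rw [← Finset.add_sum_erase Finset.univ _ (Finset.mem_univ b)]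
          refine Nat.add_le_add_left ?_ _
          exact Finset.single_le_sum
            (f := fun a : Fin (m + 1 + k) => if a.val < m then (x a).val - I.c a else 0)
            (fun _ _ => Nat.zero_le _) (Finset.mem_erase.2 ⟨hab, Finset.mem_univ a⟩)
        rw [if_pos hbm, if_pos ha] at e2
        have e3 := hq a ha
        omega
      have hcn : ∀ a, I.c a < n := fun a => by have := I.cn a; omega
      obtain ⟨j, hj1, hj2, hj3⟩ : ∃ j : Fin (m + 1 + k) → Fin n,
          (∀ a : Fin (m + 1 + k), a.val < m → j a = x a) ∧ Z j + 1 = I.zf ∧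
          (∀ a : Fin (m + 1 + k), m < a.val → (j a).val = I.c a) := by
        refine ⟨fun a => if a.val < m then x a else if a.val = m then ⟨I.zf - 1, by omega⟩ else
          ⟨I.c a, hcn a⟩, fun a ha => if_pos ha, ?_, fun a ha => ?_⟩
        · show ((if m < m then x hz else if m = m then (⟨I.zf - 1, by omega⟩ : Fin n) else
            ⟨I.c hz, hcn hz⟩).val) + 1 = I.zf
          rw [if_neg (lt_irrefl m), if_pos rfl]
          show I.zf - 1 + 1 = I.zf
          have := I.z2
          omega
        · simp only [if_neg (not_lt.2 ha.le), if_neg ha.ne']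
      have hjJ : j ∈ S := by
        refine hS (Or.inl ⟨hj2, hj3, b, hb, ?_, fun a ha hab => ?_⟩)
        · rw [hj1 b hb]; exact hb1
        · rw [hj1 a ha]; exact hb2 a ha hab
      have hzv : I.zf < n := by omega
      have hneq : ∀ a : Fin (m + 1 + k), a.val < m → a ≠ hz := by
        intro a ha h
        rw [h] at ha
        exact lt_irrefl _ ha
      have e1 : ∀ a : Fin (m + 1 + k), a.val < m →
          Function.update j hz (⟨I.zf, hzv⟩ : Fin n) a = x a := by
        intro a ha
        rw [Function.update_of_ne (hneq a ha)]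
        exact hj1 a ha
      have e2 : I.zf ≤ Z (Function.update j hz (⟨I.zf, hzv⟩ : Fin n)) := by
        unfold IgD.Z
        rw [Function.update_self]
      refine hbox (Function.update j hz ⟨I.zf, hzv⟩) e1 e2 ?_
      refine step1 I S hS hcl _ e2 (quad_congr I (fun a ha => (e1 a ha).symm) hq) (ih _ e1) j ?_ hjJ
        (fun a ha => by rw [e1 a ha, hj1 a ha])
      refine ⟨hz, Or.inr ?_, fun a ha => ?_⟩
      · rw [Function.update_self]
        exact hj2
      · rw [Function.update_of_ne ha]
    · have hmod : cod1 x % (2 * (m + 1)) < 2 * (m + 1) := Nat.mod_lt _ (by omega)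
      obtain ⟨s, hs1, hs2, hs3⟩ : ∃ s : Fin (m + 1 + k) → Fin n,
          (∀ a : Fin (m + 1 + k), a.val < m → s a = x a) ∧
          Z s = I.zf + 2 + 2 * (cod1 x % (2 * (m + 1))) ∧
          (∀ a : Fin (m + 1 + k), m < a.val → (s a).val + 1 = n) := by
        refine ⟨fun a => if a.val < m then x a else if a.val = m then
          ⟨I.zf + 2 + 2 * (cod1 x % (2 * (m + 1))), by omega⟩ else
          ⟨n - 1, by omega⟩, fun a ha => if_pos ha, ?_, fun a ha => ?_⟩
        · show ((if m < m then x hz else if m = m then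
            (⟨I.zf + 2 + 2 * (cod1 x % (2 * (m + 1))), by omega⟩ : Fin n) else
            ⟨n - 1, by omega⟩).val) = _
          rw [if_neg (lt_irrefl m), if_pos rfl]
        · simp only [if_neg (not_lt.2 ha.le), if_neg ha.ne']
          omega
      refine hbox s hs1 (by omega) (hS (Or.inr (Or.inr (Or.inl ⟨?_, hs3, ?_, ?_⟩))))
      · rw [hs2, cod1_congr hs1]
      · exact quad_congr I (fun a ha => (hs1 a ha).symm) hq
      · rw [del_congr I hs1]; omega

/-- the lower part, one step -/
lemma step2 (S : Set (Fin (m + 1 + k) → Fin n)) (hS : I.J ⊆ S)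
    (hcl : Closed (Gd (m + 1 + k) n) (m + 1) S) (hup : ∀ x, I.zf ≤ Z x → x ∈ S)
    (y : Fin (m + 1 + k) → Fin n) (hz : Z y < I.zf) (hq : ¬ I.slab y)
    (ih : ∀ x, Z x < I.zf → ¬ I.slab x →
      ∑ a : Fin (m + 1 + k), (if 1 ≤ a.val ∧ a.val ≤ m then n - (x a).val else 0) <
        ∑ a : Fin (m + 1 + k), (if 1 ≤ a.val ∧ a.val ≤ m then n - (y a).val else 0) → x ∈ S)
    (w : Fin (m + 1 + k) → Fin n) (hw : (Gd (m + 1 + k) n).Adj y w) (hwS : w ∈ S)
    (hwe : ∀ a : Fin (m + 1 + k), 1 ≤ a.val → a.val ≤ m → w a = y a) : y ∈ S := by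
  have hzn := I.zn
  have hroom : ∀ i : Fin m, (y ⟨i.val + 1, by omega⟩).val + 1 < n := by
    intro i
    by_cases hi : i.val + 1 = m
    · have : (⟨i.val + 1, by omega⟩ : Fin (m + 1 + k)) = IgD.hz := Fin.ext hi
      rw [this]
      have : (y IgD.hz).val < I.zf := hz
      omega
    · by_contra hc
      exact hq ⟨hz, ⟨i.val + 1, by omega⟩, by show 1 ≤ i.val + 1; omega,
        by show i.val + 1 < m; omega, by omega⟩
  apply hcl
  refine cnt_ge S y (fun i : Fin m => (⟨i.val + 1, by omega⟩ : Fin (m + 1 + k))) ?_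
    (fun i => ⟨(y ⟨i.val + 1, by omega⟩).val + 1, hroom i⟩)
    ?_ ?_ w hw hwS (fun i => hwe _ (by show 1 ≤ i.val + 1; omega)
      (by show i.val + 1 ≤ m; omega))
  · intro i j h
    have h1 : i.val + 1 = j.val + 1 := congrArg Fin.val h
    exact Fin.ext (by omega)
  · intro i
    refine ⟨⟨i.val + 1, by omega⟩, Or.inl ?_, fun j hj => ?_⟩
    · rw [Function.update_self]
    · rw [Function.update_of_ne hj]
  · intro i
    obtain ⟨y', hy'⟩ : ∃ y' : Fin (m + 1 + k) → Fin n, y' = Function.update y
        (⟨i.val + 1, by omega⟩ : Fin (m + 1 + k)) ⟨(y ⟨i.val + 1, by omega⟩).val + 1, hroom i⟩ :=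
      ⟨_, rfl⟩
    rw [← hy']
    have e1 : (y' ⟨i.val + 1, by omega⟩).val = (y ⟨i.val + 1, by omega⟩).val + 1 := by
      rw [hy', Function.update_self]
    have e2 : ∀ a : Fin (m + 1 + k), a ≠ ⟨i.val + 1, by omega⟩ → y' a = y a := by
      intro a ha
      rw [hy', Function.update_of_ne ha]
    by_cases hu : I.zf ≤ Z y'
    · exact hup y' hu
    by_cases hsl : I.slab y'
    · exact hS (Or.inr (Or.inr (Or.inr (Or.inl hsl))))
    refine ih y' (by omega) hsl ?_
    refine Finset.sum_lt_sum (fun a _ => ?_) ⟨⟨i.val + 1, by omega⟩, Finset.mem_univ _, ?_⟩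
    · by_cases ha : a = ⟨i.val + 1, by omega⟩
      · subst ha
        rw [e1]
        split_ifs <;> omega
      · rw [e2 a ha]
    · have h5 : 1 ≤ (⟨i.val + 1, by omega⟩ : Fin (m + 1 + k)).val ∧
          (⟨i.val + 1, by omega⟩ : Fin (m + 1 + k)).val ≤ m := by
        show 1 ≤ i.val + 1 ∧ i.val + 1 ≤ m
        omega
      rw [if_pos h5, if_pos h5, e1]
      have := hroom i
      omega

/-- the lower part -/
lemma down_all (S : Set (Fin (m + 1 + k) → Fin n)) (hS : I.J ⊆ S)
    (hcl : Closed (Gd (m + 1 + k) n) (m + 1) S) (hup : ∀ x, I.zf ≤ Z x → x ∈ S) :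
    ∀ N : ℕ, ∀ x, Z x < I.zf → ¬ I.slab x →
      ∑ a : Fin (m + 1 + k), (if 1 ≤ a.val ∧ a.val ≤ m then n - (x a).val else 0) = N →
      x ∈ S := by
  intro N
  induction N using Nat.strong_induction_on with
  | _ N IH =>
  intro x hx hq hd
  have hm := I.hm
  have hzn := I.zn
  have sum_congr' : ∀ y : Fin (m + 1 + k) → Fin n,
      (∀ a : Fin (m + 1 + k), 1 ≤ a.val → a.val ≤ m → y a = x a) →
      ∑ a : Fin (m + 1 + k), (if 1 ≤ a.val ∧ a.val ≤ m then n - (y a).val else 0) = N := by
    intro y hy
    rw [← hd]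
    apply Finset.sum_congr rfl
    intro a _
    by_cases ha : 1 ≤ a.val ∧ a.val ≤ m
    · rw [if_pos ha, if_pos ha, hy a ha.1 ha.2]
    · rw [if_neg ha, if_neg ha]
  have ih : ∀ y : Fin (m + 1 + k) → Fin n,
      (∀ a : Fin (m + 1 + k), 1 ≤ a.val → a.val ≤ m → y a = x a) →
      ∀ z, Z z < I.zf → ¬ I.slab z →
      ∑ a : Fin (m + 1 + k), (if 1 ≤ a.val ∧ a.val ≤ m then n - (z a).val else 0) <
        ∑ a : Fin (m + 1 + k), (if 1 ≤ a.val ∧ a.val ≤ m then n - (y a).val else 0) → z ∈ S := by
    intro y hy z hz hzq hlt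
    rw [sum_congr' y hy] at hlt
    exact IH _ hlt z hz hzq rfl
  have hZ : ∀ y : Fin (m + 1 + k) → Fin n,
      (∀ a : Fin (m + 1 + k), 1 ≤ a.val → a.val ≤ m → y a = x a) → Z y = Z x := by
    intro y hy
    unfold IgD.Z
    rw [hy hz (by show 1 ≤ m; omega) (le_refl m)]
  have hslab : ∀ y : Fin (m + 1 + k) → Fin n,
      (∀ a : Fin (m + 1 + k), 1 ≤ a.val → a.val ≤ m → y a = x a) → ¬ I.slab y := by
    intro y hy hsl
    obtain ⟨h1, a, h2, h3, h4⟩ := hsl
    rw [hy a h2 h3.le] at h4
    exact hq ⟨hx, a, h2, h3, h4⟩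
  have hbox : ∀ s : Fin (m + 1 + k) → Fin n,
      (∀ a : Fin (m + 1 + k), 1 ≤ a.val → a.val ≤ m → s a = x a) → s ∈ S → x ∈ S := by
    intro s hs1 hs3
    refine box_conn (fun a => if 1 ≤ a.val ∧ a.val ≤ m then (x a).val else 0)
      (fun a => if 1 ≤ a.val ∧ a.val ≤ m then (x a).val else n) S s ?_ hs3 ?_ x ?_
    · intro a
      have := (s a).isLt
      by_cases ha : 1 ≤ a.val ∧ a.val ≤ m
      · simp only [if_pos ha, hs1 a ha.1 ha.2, le_refl, and_self]
      · simp only [if_neg ha]
        omega
    · intro y y' hy hy' hyS hadj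
      have e1 : ∀ a : Fin (m + 1 + k), 1 ≤ a.val → a.val ≤ m → y a = x a := by
        intro a ha1 ha2
        have := hy a
        simp only [if_pos (And.intro ha1 ha2)] at this
        exact Fin.ext (by omega)
      have e2 : ∀ a : Fin (m + 1 + k), 1 ≤ a.val → a.val ≤ m → y' a = x a := by
        intro a ha1 ha2
        have := hy' a
        simp only [if_pos (And.intro ha1 ha2)] at this
        exact Fin.ext (by omega)
      exact step2 I S hS hcl hup y' (by rw [hZ y' e2]; exact hx) (hslab y' e2) (ih y' e2) y hadj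
        hyS (fun a ha1 ha2 => (e1 a ha1 ha2).trans (e2 a ha1 ha2).symm)
    · intro a
      have := (x a).isLt
      by_cases ha : 1 ≤ a.val ∧ a.val ≤ m
      · simp only [if_pos ha, le_refl, and_self]
      · simp only [if_neg ha]
        omega
  have hmod : cod2 x % (2 * (m + 1)) < 2 * (m + 1) := Nat.mod_lt _ (by omega)
  obtain ⟨s, hs1, hs2, hs3⟩ : ∃ s : Fin (m + 1 + k) → Fin n,
      (∀ a : Fin (m + 1 + k), 1 ≤ a.val → a.val ≤ m → s a = x a) ∧
      (s h0).val + 2 + 2 * (cod2 x % (2 * (m + 1))) = n ∧
      (∀ a : Fin (m + 1 + k), m < a.val → (s a).val + 1 = n) := by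
    refine ⟨fun a => if a.val = 0 then ⟨n - 2 - 2 * (cod2 x % (2 * (m + 1))), by omega⟩ else
      if a.val ≤ m then x a else ⟨n - 1, by omega⟩, fun a ha1 ha2 => ?_, ?_, fun a ha => ?_⟩
    · simp only [if_neg (show ¬ a.val = 0 by omega), if_pos ha2]
    · have h00 : (h0 : Fin (m + 1 + k)).val = 0 := rfl
      simp only [if_pos h00]
      show n - 2 - 2 * (cod2 x % (2 * (m + 1))) + 2 + 2 * (cod2 x % (2 * (m + 1))) = n
      omega
    · simp only [if_neg (show ¬ a.val = 0 by omega), if_neg (not_le.2 ha)]
      omega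
  refine hbox s hs1 (hS (Or.inr (Or.inr (Or.inr (Or.inr ⟨?_, hslab s hs1, ?_, hs3⟩)))))
  · rw [hZ s hs1]; exact hx
  · rw [cod2_congr hs1]; exact hs2

/-- IG1: the ignition system with the vertex two below the corner percolates -/
theorem ig1 (S : Set (Fin (m + 1 + k) → Fin n)) (hS : I.J ⊆ S)
    (hcl : Closed (Gd (m + 1 + k) n) (m + 1) S) (x0 : Fin (m + 1 + k) → Fin n) (h0 : I.cor x0)
    (h1 : Z x0 + 2 = I.zf) (h2 : x0 ∈ S) : ∀ x, x ∈ S := by
  have hm := I.hm
  have hzn := I.zn
  have hz2 := I.z2
  have hcn : ∀ a, I.c a + 1 < n := fun a => by have := I.cn a; omega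
  have hne : ∀ i : Fin m, (⟨i.val, by omega⟩ : Fin (m + 1 + k)) ≠ hz := by
    intro i h
    have h1 : i.val = m := congrArg Fin.val h
    omega
  have hval : ∀ i : Fin m, (⟨i.val, by omega⟩ : Fin (m + 1 + k)).val ≠ m := by
    intro i h
    have h1 : i.val = m := h
    omega
  -- the vertex below the corner
  obtain ⟨x1, hx1⟩ : ∃ x1 : Fin (m + 1 + k) → Fin n,
      x1 = Function.update x0 hz ⟨I.zf - 1, by omega⟩ := ⟨_, rfl⟩
  have hx1z : (x1 hz).val = I.zf - 1 := by rw [hx1, Function.update_self]
  have hx1c : I.cor x1 := by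
    intro a ha
    rw [hx1, Function.update_of_ne (fun h => ha (by rw [h]; rfl))]
    exact h0 a ha
  have hx1S : x1 ∈ S := by
    apply hcl
    refine cnt_ge S x1 (fun i : Fin m => (⟨i.val, by omega⟩ : Fin (m + 1 + k))) ?_
      (fun i => ⟨I.c ⟨i.val, by omega⟩ + 1, hcn _⟩) ?_ ?_ x0 ?_ h2 ?_
    · intro i j h
      have := congrArg Fin.val h
      exact Fin.ext this
    · intro i
      refine ⟨⟨i.val, by omega⟩, Or.inl ?_, fun j hj => ?_⟩
      · rw [Function.update_self, hx1c _ (hval i)]
      · rw [Function.update_of_ne hj]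
    · intro i
      refine hS (Or.inl ⟨?_, fun a ha => ?_, ⟨i.val, by omega⟩, i.isLt, ?_, fun a ha hab => ?_⟩)
      · unfold IgD.Z
        rw [Function.update_of_ne (hne i).symm, hx1z]
        omega
      · rw [Function.update_of_ne (fun h => by
          have h5 : a.val = i.val := congrArg Fin.val h
          omega)]
        exact hx1c a ha.ne'
      · rw [Function.update_self]
      · rw [Function.update_of_ne hab]
        exact hx1c a ha.ne
    · refine ⟨hz, Or.inr ?_, fun a ha => ?_⟩
      · rw [hx1z]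
        have : (x0 hz).val + 2 = I.zf := h1
        omega
      · rw [hx1, Function.update_of_ne ha]
    · intro i
      rw [hx1, Function.update_of_ne (hne i)]
  -- the corner
  obtain ⟨x2, hx2⟩ : ∃ x2 : Fin (m + 1 + k) → Fin n,
      x2 = Function.update x1 hz ⟨I.zf, by omega⟩ := ⟨_, rfl⟩
  have hx2z : (x2 hz).val = I.zf := by rw [hx2, Function.update_self]
  have hx2c : I.cor x2 := by
    intro a ha
    rw [hx2, Function.update_of_ne (fun h => ha (by rw [h]; rfl))]
    exact hx1c a ha
  have hx2S : x2 ∈ S := by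
    apply hcl
    refine cnt_ge S x2 (fun i : Fin m => (⟨i.val, by omega⟩ : Fin (m + 1 + k))) ?_
      (fun i => ⟨I.c ⟨i.val, by omega⟩ - 1, by have := hcn ⟨i.val, by omega⟩; omega⟩)
      ?_ ?_ x1 ?_ hx1S ?_
    · intro i j h
      have := congrArg Fin.val h
      exact Fin.ext this
    · intro i
      refine ⟨⟨i.val, by omega⟩, Or.inr ?_, fun j hj => ?_⟩
      · rw [Function.update_self, hx2c _ (hval i)]
        have := I.c1 ⟨i.val, by omega⟩
        show I.c ⟨i.val, by omega⟩ - 1 + 1 = _
        omega
      · rw [Function.update_of_ne hj]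
    · intro i
      refine hS (Or.inr (Or.inl ⟨?_, fun hq => ?_⟩))
      · unfold IgD.Z
        rw [Function.update_of_ne (hne i).symm, hx2z]
      · have h5 := hq ⟨i.val, by omega⟩ i.isLt
        rw [Function.update_self] at h5
        have h6 : I.c ⟨i.val, by omega⟩ ≤ I.c ⟨i.val, by omega⟩ - 1 := h5
        have := I.c1 ⟨i.val, by omega⟩
        omega
    · refine ⟨hz, Or.inr ?_, fun a ha => ?_⟩
      · rw [hx1z, hx2z]
        omega
      · rw [hx2, Function.update_of_ne ha]
    · intro i
      rw [hx2, Function.update_of_ne (hne i)]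
  have hup : ∀ x, I.zf ≤ Z x → x ∈ S := by
    intro x hx
    by_cases hq : I.quad x
    · exact up_all I S hS hcl x2 hx2c hx2z hx2S _ x hx hq rfl
    · exact hS (Or.inr (Or.inl ⟨hx, hq⟩))
  intro x
  by_cases hx : I.zf ≤ Z x
  · exact hup x hx
  · by_cases hsl : I.slab x
    · exact hS (Or.inr (Or.inr (Or.inr (Or.inl hsl))))
    · exact down_all I S hS hcl hup _ x (not_le.1 hx) hsl rfl

end Pool.Agent.Helper33.Gen
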